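import Mathlib

/-!
# A semi-Eberlein compact subset of a cube without the decomposition property

`I = J ⊔ E` with `J` uncountable and `E` the set of all countably infinite subsets of `J`;
`K` is the set of characteristic functions of those `y ⊆ I` for which `e ∈ y` implies `e ⊆ y`.
-/

open Set Topology

namespace Pool.Agent.Results.MP_abc717_gt.NoDecomposition

/-- `Σ(I)`: the points of the cube `[-1,1]^I` with countable support. -/
def SigmaCube (I : Type) : Set (I → ℝ) :=
  {x | (∀ i, x i ∈ Icc (-1 : ℝ) 1) ∧ {i | x i ≠ 0}.Countable}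

/-- `c₀(Γ)`. -/
def c0 (Γ : Type) : Set (Γ → ℝ) := {x | ∀ ε : ℝ, 0 < ε → {γ | ε < |x γ|}.Finite}

/-- A (compact Hausdorff) space is semi-Eberlein if it embeds into a cube `[0,1]^Γ` so that the
points of `c₀(Γ)` in the image are dense in the image. -/
def SemiEberlein (K : Type) [TopologicalSpace K] : Prop :=
  CompactSpace K ∧ T2Space K ∧ ∃ (Γ : Type) (h : K → Γ → ℝ), IsEmbedding h ∧
    (∀ k γ, h k γ ∈ Icc (0 : ℝ) 1) ∧ range h ⊆ closure (range h ∩ c0 Γ)

/-- The countably infinite subsets of the line. -/
abbrev E : Type := {e : Set ℝ // e.Countable ∧ e.Infinite}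

/-- The index set. -/
abbrev Idx : Type := ℝ ⊕ E

/-- The compact set. -/
def KK : Set (Idx → ℝ) :=
  {x | (∀ i, x i = 0 ∨ x i = 1) ∧ ∀ (e : E), ∀ j ∈ e.1, x (Sum.inr e) ≤ x (Sum.inl j)}

lemma mem_Icc_of {a : ℝ} (h : a = 0 ∨ a = 1) : a ∈ Icc (0 : ℝ) 1 := by
  rcases h with h | h <;> rw [h] <;> constructor <;> norm_num

lemma isCompact_KK : IsCompact KK := by
  have hc : IsClosed KK := by
    have : KK = (⋂ i, {x : Idx → ℝ | x i ∈ ({0, 1} : Set ℝ)}) ∩
        ⋂ (e : E), ⋂ (j : ℝ), ⋂ (_ : j ∈ e.1), {x : Idx → ℝ | x (Sum.inr e) ≤ x (Sum.inl j)} := by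
      ext x
      simp [KK]
    rw [this]
    refine IsClosed.inter (isClosed_iInter fun i => ?_) (isClosed_iInter fun e =>
      isClosed_iInter fun j => isClosed_iInter fun _ => ?_)
    · exact (Set.toFinite ({0, 1} : Set ℝ)).isClosed.preimage (continuous_apply i)
    · exact isClosed_le (continuous_apply _) (continuous_apply _)
  refine (isCompact_univ_pi (fun _ : Idx => isCompact_Icc (a := (0 : ℝ)) (b := 1))).of_isClosed_subset
    hc ?_
  intro x hx i _
  exact mem_Icc_of (hx.1 i)

/-- Membership in a closure of a set of functions, by finite agreement. -/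
lemma mem_closure_of_agree {I : Type} {S : Set (I → ℝ)} {x : I → ℝ}
    (h : ∀ F : Finset I, ∃ y ∈ S, ∀ i ∈ F, y i = x i) : x ∈ closure S := by
  rw [mem_closure_iff]
  intro o ho hx
  obtain ⟨F, u, hu, hsub⟩ := isOpen_pi_iff.1 ho x hx
  obtain ⟨y, hy, hyx⟩ := h F
  refine ⟨y, hsub ?_, hy⟩
  intro i hi
  rw [hyx i hi]
  exact (hu i hi).2

/-- The embedding which witnesses that `KK` is semi-Eberlein. -/
def hh (x : Idx → ℝ) : Idx → ℝ := Sum.elim (fun j => 1 - x (Sum.inl j)) (fun e => x (Sum.inr e))

lemma continuous_hh : Continuous hh := by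
  refine continuous_pi fun i => ?_
  rcases i with j | e
  · exact continuous_const.sub (continuous_apply _)
  · exact continuous_apply _

lemma hh_injective : Function.Injective hh := by
  intro x y hxy
  funext i
  rcases i with j | e
  · have := congrFun hxy (Sum.inl j)
    simp only [hh, Sum.elim_inl] at this
    linarith
  · exact congrFun hxy (Sum.inr e)

lemma semiEberlein_KK : SemiEberlein KK := by
  have hcs : CompactSpace KK := isCompact_iff_compactSpace.1 isCompact_KK
  refine ⟨hcs, inferInstance, Idx, fun x => hh x.1, ?_, ?_, ?_⟩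
  · exact ((continuous_hh.comp continuous_subtype_val).isClosedEmbedding
      (hh_injective.comp Subtype.val_injective)).isEmbedding
  · rintro ⟨x, hx⟩ i
    rcases i with j | e
    · have := mem_Icc_of (hx.1 (Sum.inl j))
      simp only [hh, Sum.elim_inl, mem_Icc] at this ⊢
      constructor <;> linarith [this.1, this.2]
    · exact mem_Icc_of (hx.1 (Sum.inr e))
  · rintro _ ⟨⟨x, hx⟩, rfl⟩
    refine mem_closure_of_agree fun F => ?_
    classical
    set y : Idx → ℝ := fun i => if i ∈ F then x i else Sum.elim (fun _ => 1) (fun _ => 0) i with hy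
    have hyK : y ∈ KK := by
      constructor
      · intro i
        by_cases hi : i ∈ F
        · simp only [hy, hi, if_true]
          exact hx.1 i
        · rcases i with j | e
          · right; simp only [hy, hi, if_false, Sum.elim_inl]
          · left; simp only [hy, hi, if_false, Sum.elim_inr]
      · intro e j hj
        by_cases he : Sum.inr e ∈ F
        · by_cases hj' : Sum.inl j ∈ F
          · simp only [hy, he, hj', if_true]
            exact hx.2 e j hj
          · simp only [hy, he, hj', if_true, if_false, Sum.elim_inl]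
            exact (mem_Icc_of (hx.1 _)).2
        · simp only [hy, he, if_false, Sum.elim_inr]
          by_cases hj' : Sum.inl j ∈ F
          · simp only [hj', if_true]
            exact (mem_Icc_of (hx.1 _)).1
          · simp only [hj', if_false, Sum.elim_inl]
            exact zero_le_one
    refine ⟨hh y, ⟨⟨⟨y, hyK⟩, rfl⟩, ?_⟩, ?_⟩
    · intro ε hε
      refine F.finite_toSet.subset ?_
      intro i hi
      by_contra hiF
      have hiF' : i ∉ F := hiF
      have h0 : hh y i = 0 := by
        rcases i with j | e
        · simp only [hh, Sum.elim_inl, hy, hiF', if_false, sub_self]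
        · simp only [hh, Sum.elim_inr, hy, hiF', if_false]
      have hi' : ε < |hh y i| := hi
      rw [h0, abs_zero] at hi'
      exact absurd hi' (not_lt.2 hε.le)
    · intro i hi
      rcases i with j | e
      · simp only [hh, Sum.elim_inl, hy, hi, if_true]
      · simp only [hh, Sum.elim_inr, hy, hi, if_true]

lemma dense_sigma : KK ⊆ closure (SigmaCube Idx ∩ KK) := by
  intro x hx
  refine mem_closure_of_agree fun F => ?_
  classical
  set T : Set Idx := (F : Set Idx) ∪ ⋃ i ∈ F, Sum.elim (fun _ => (∅ : Set Idx))
    (fun e : E => Sum.inl '' e.1) i with hT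
  have hTc : T.Countable := by
    refine F.countable_toSet.union (F.countable_toSet.biUnion fun i _ => ?_)
    rcases i with j | e
    · exact countable_empty
    · exact e.2.1.image _
  have hmem : T.indicator x ∈ KK := by
    constructor
    · intro i
      by_cases hi : i ∈ T
      · rw [indicator_of_mem hi]; exact hx.1 i
      · left; exact indicator_of_notMem hi x
    · intro e j hj
      by_cases he : Sum.inr e ∈ T
      · have heF : Sum.inr e ∈ F := by
          rcases he with he | he
          · exact he
          · simp only [mem_iUnion, exists_prop] at he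
            obtain ⟨i, _, hi⟩ := he
            rcases i with j' | e'
            · exact hi.elim
            · obtain ⟨_, _, h⟩ := hi
              cases h
        have hjT : Sum.inl j ∈ T := by
          right
          simp only [mem_iUnion, exists_prop]
          exact ⟨Sum.inr e, heF, mem_image_of_mem _ hj⟩
        rw [indicator_of_mem he, indicator_of_mem hjT]
        exact hx.2 e j hj
      · rw [indicator_of_notMem he]
        by_cases hjT : Sum.inl j ∈ T
        · rw [indicator_of_mem hjT]
          exact (mem_Icc_of (hx.1 _)).1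
        · rw [indicator_of_notMem hjT]
  refine ⟨T.indicator x, ⟨⟨fun i => ?_, ?_⟩, hmem⟩, ?_⟩
  · have := mem_Icc_of (hmem.1 i)
    exact ⟨by linarith [this.1], this.2⟩
  · refine hTc.mono ?_
    intro i hi
    by_contra hiT
    exact hi (indicator_of_notMem hiT x)
  · intro i hi
    have hiT : i ∈ T := Or.inl hi
    exact indicator_of_mem hiT x

/-- **Theorem.** There are an index set `I` and a compact set `K ⊆ [-1,1]^I` which is
semi-Eberlein and in which `Σ(I) ∩ K` is dense, such that no dense subset `D` of `K` contained in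
`Σ(I)` has the decomposition property: for every such `D`, with `ε = 1/2`, every countable cover
of `I` has a member on which some `x ∈ D` is larger than `ε` at infinitely many places. -/
theorem result :
    ∃ (I : Type) (K : Set (I → ℝ)),
      (∀ x ∈ K, ∀ i, x i ∈ Icc (-1 : ℝ) 1) ∧ IsCompact K ∧
      K ⊆ closure (SigmaCube I ∩ K) ∧ SemiEberlein K ∧
      ∀ D : Set (I → ℝ), D ⊆ SigmaCube I ∩ K → K ⊆ closure D →
        ∃ ε : ℝ, 0 < ε ∧ ∀ P : ℕ → Set I, (⋃ n, P n) = univ →
          ∃ n, ∃ x ∈ D, {i ∈ P n | ε < |x i|}.Infinite := by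
  refine ⟨Idx, KK, ?_, isCompact_KK, dense_sigma, semiEberlein_KK, ?_⟩
  · intro x hx i
    have := mem_Icc_of (hx.1 i)
    exact ⟨by linarith [this.1], this.2⟩
  · intro D hDK hD
    refine ⟨1 / 2, by norm_num, ?_⟩
    intro P hP
    have h1 : ∃ n, ((Sum.inl : ℝ → Idx) ⁻¹' P n).Infinite := by
      by_contra hcon
      push Not at hcon
      have hcount : (univ : Set ℝ).Countable := by
        have : (univ : Set ℝ) = ⋃ n, (Sum.inl : ℝ → Idx) ⁻¹' P n := by
          rw [← preimage_iUnion, hP, preimage_univ]
        rw [this]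
        exact countable_iUnion fun n => (hcon n).countable
      exact Cardinal.not_countable_real hcount
    obtain ⟨n, hn⟩ := h1
    set f : ℕ → ℝ := fun k => (hn.natEmbedding _ k : ℝ) with hf
    have hfinj : Function.Injective f :=
      Subtype.val_injective.comp (hn.natEmbedding _).injective
    have hfP : ∀ k, Sum.inl (f k) ∈ P n := fun k => (hn.natEmbedding _ k).2
    set e : E := ⟨range f, countable_range f, infinite_range_of_injective hfinj⟩ with he
    have hone : (fun _ => (1 : ℝ)) ∈ KK := ⟨fun _ => Or.inr rfl, fun _ _ _ => le_rfl⟩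
    have hopen : IsOpen {x : Idx → ℝ | 1 / 2 < x (Sum.inr e)} :=
      isOpen_lt continuous_const (continuous_apply _)
    obtain ⟨y, hyo, hyD⟩ := mem_closure_iff.1 (hD hone) _ hopen
      (by show (1 / 2 : ℝ) < 1; norm_num)
    have hyK : y ∈ KK := (hDK hyD).2
    refine ⟨n, y, hyD, ?_⟩
    refine (infinite_range_of_injective (f := fun k => (Sum.inl (f k) : Idx))
      (Sum.inl_injective.comp hfinj)).mono ?_
    rintro _ ⟨k, rfl⟩
    refine ⟨hfP k, ?_⟩
    have h2 : y (Sum.inr e) ≤ y (Sum.inl (f k)) := hyK.2 e (f k) (mem_range_self k)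
    have h3 : (1 : ℝ) / 2 < y (Sum.inr e) := hyo
    exact lt_of_lt_of_le (lt_of_lt_of_le h3 h2) (le_abs_self _)

end Pool.Agent.Results.MP_abc717_gt.NoDecomposition
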